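import Pool.Agent.H85.TU.Targets

/-! HIS of `tum_modules`: formulas are invariant under isomorphisms. -/

set_option autoImplicit false

namespace Pool.Agent.H97.TU

open Set Pool.Agent.H85.TU

theorem pf_HIS : T_HIS := by
  intro ι ar D _ V _ φ x x' g hg
  induction φ with
  | label i B hB w =>
    intro v
    have h1 := hg i (v ∘ w)
    show x' i ((g ∘ v) ∘ w) ∈ B ↔ x i (v ∘ w) ∈ B
    rw [Function.comp_assoc, h1]
  | equal a b => exact fun v => g.injective.eq_iff
  | not θ ih => exact fun v => not_congr (ih v)
  | conj θ ih => exact fun v => forall_congr' fun n => ih n v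
  | ex a θ ih =>
    intro v
    have h1 : ∀ n, Function.update (g ∘ v) a (g n) = g ∘ Function.update v a n := by
      intro n
      exact (Function.comp_update g v a n).symm
    constructor
    · rintro ⟨n, hn⟩
      refine ⟨g.symm n, (ih _).1 ?_⟩
      rw [← h1, g.apply_symm_apply]
      exact hn
    · rintro ⟨n, hn⟩
      refine ⟨g n, ?_⟩
      rw [h1]
      exact (ih _).2 hn
  | atLeast k a θ ih =>
    intro v
    have h1 : ∀ n, Function.update (g ∘ v) a (g n) = g ∘ Function.update v a n := by
      intro n
      exact (Function.comp_update g v a n).symm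
    have h2 : {n | Holds x' θ (Function.update (g ∘ v) a n)} =
        g '' {n | Holds x θ (Function.update v a n)} := by
      ext n
      constructor
      · intro hn
        refine ⟨g.symm n, (ih _).1 ?_, g.apply_symm_apply n⟩
        rw [← h1, g.apply_symm_apply]
        exact hn
      · rintro ⟨n', hn', rfl⟩
        show Holds x' θ (Function.update (g ∘ v) a (g n'))
        rw [h1]
        exact (ih _).2 hn'
    show (k : ℕ∞) ≤ {n | Holds x' θ (Function.update (g ∘ v) a n)}.encard ↔
      (k : ℕ∞) ≤ {n | Holds x θ (Function.update v a n)}.encard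
    rw [h2, g.injective.encard_image]

end Pool.Agent.H97.TU
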