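import Pool.Agent.H85.TU.Targets

/-! SUB of `tum_modules`: there are countably many subformulas. -/

set_option autoImplicit false

namespace Pool.Agent.H97.TU

open Set Pool.Agent.H85.TU

section

variable {V : Type} {ι : Type} {ar : ι → ℕ} {D : ι → Type} [∀ i, MeasurableSpace (D i)]

theorem self_subs (φ : Formula V ar D) : φ ∈ subs φ := by
  cases φ with
  | label i B hB w => exact Set.mem_singleton _
  | equal a b => exact Set.mem_singleton _
  | not θ => exact Or.inl (Set.mem_singleton _)
  | conj θ => exact Or.inl (Set.mem_singleton _)
  | ex a θ => exact Or.inl (Set.mem_singleton _)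
  | atLeast k a θ => exact Or.inl (Set.mem_singleton _)

theorem countable_subs (φ : Formula V ar D) : (subs φ).Countable := by
  induction φ with
  | label i B hB w => exact Set.countable_singleton _
  | equal a b => exact Set.countable_singleton _
  | not θ ih => exact (Set.countable_singleton _).union ih
  | conj θ ih => exact (Set.countable_singleton _).union (Set.countable_iUnion ih)
  | ex a θ ih => exact (Set.countable_singleton _).union ih
  | atLeast k a θ ih => exact (Set.countable_singleton _).union ih

theorem subs_subs (φ : Formula V ar D) : ∀ ψ ∈ subs φ, subs ψ ⊆ subs φ := by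
  induction φ with
  | label i B hB w =>
    intro ψ hψ
    rw [Set.mem_singleton_iff.mp hψ]
  | equal a b =>
    intro ψ hψ
    rw [Set.mem_singleton_iff.mp hψ]
  | not θ ih =>
    intro ψ hψ
    rcases hψ with h | h
    · rw [Set.mem_singleton_iff.mp h]
    · exact (ih ψ h).trans Set.subset_union_right
  | conj θ ih =>
    intro ψ hψ
    rcases hψ with h | h
    · rw [Set.mem_singleton_iff.mp h]
    · obtain ⟨n, hn⟩ := Set.mem_iUnion.mp h
      exact (ih n ψ hn).trans ((Set.subset_iUnion (fun n => subs (θ n)) n).trans
        Set.subset_union_right)
  | ex a θ ih =>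
    intro ψ hψ
    rcases hψ with h | h
    · rw [Set.mem_singleton_iff.mp h]
    · exact (ih ψ h).trans Set.subset_union_right
  | atLeast k a θ ih =>
    intro ψ hψ
    rcases hψ with h | h
    · rw [Set.mem_singleton_iff.mp h]
    · exact (ih ψ h).trans Set.subset_union_right

end

theorem pf_SUB : T_SUB := fun _ _ φ => ⟨countable_subs φ, self_subs φ, subs_subs φ⟩

end Pool.Agent.H97.TU
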