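import Pool.Agent.H85.TU.Targets

/-! TRU of `tum_modules`: the labels of the models of the normal form are truth values. -/

set_option autoImplicit false

namespace Pool.Agent.H97.TU.TRU

open Set Pool.Agent.H85.TU

section

variable {V : Type} {ι : Type} {ar : ι → ℕ} {D : ι → Type} [∀ i, MeasurableSpace (D i)]

theorem noCount_subs (φ : Formula V ar D) : NoCount φ → ∀ ψ ∈ subs φ, NoCount ψ := by
  induction φ with
  | label i B hB w =>
    intro h ψ hψ
    rw [Set.mem_singleton_iff.mp hψ]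
    exact h
  | equal a b =>
    intro h ψ hψ
    rw [Set.mem_singleton_iff.mp hψ]
    exact h
  | not θ ih =>
    intro h ψ hψ
    rcases hψ with h1 | h1
    · rw [Set.mem_singleton_iff.mp h1]
      exact h
    · exact ih h ψ h1
  | conj θ ih =>
    intro h ψ hψ
    rcases hψ with h1 | h1
    · rw [Set.mem_singleton_iff.mp h1]
      exact h
    · obtain ⟨n, hn⟩ := Set.mem_iUnion.mp h1
      exact ih n (h n) ψ hn
  | ex a θ ih =>
    intro h ψ hψ
    rcases hψ with h1 | h1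
    · rw [Set.mem_singleton_iff.mp h1]
      exact h
    · exact ih h ψ h1
  | atLeast k a θ ih =>
    intro h
    exact h.elim

end

variable {C : Type} [MeasurableSpace C]

theorem holds_and2 {C' : Type} [MeasurableSpace C'] (y : Str bar (bD C') ℕ) (φ ψ : F3 C')
    (v : Fin 3 → ℕ) : Holds y (and2 φ ψ) v ↔ Holds y φ v ∧ Holds y ψ v := by
  have h : Holds y (and2 φ ψ) v ↔ ∀ n : ℕ, Holds y (if n = 0 then φ else ψ) v := Iff.rfl
  rw [h]
  constructor
  · intro h1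
    have h2 := h1 0
    have h3 := h1 1
    rw [if_pos rfl] at h2
    rw [if_neg one_ne_zero] at h3
    exact ⟨h2, h3⟩
  · rintro ⟨h1, h2⟩ n
    by_cases hn : n = 0
    · rw [if_pos hn]; exact h1
    · rw [if_neg hn]; exact h2

theorem oth_ne (a : Fin 3) (j : Fin 2) : oth a j ≠ a := by
  revert a j
  decide

theorem update_oth (v : Fin 3 → ℕ) (a : Fin 3) (n : ℕ) :
    Function.update v a n ∘ oth a = v ∘ oth a := by
  funext j
  show Function.update v a n (oth a j) = v (oth a j)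
  rw [Function.update_of_ne (oth_ne a j)]

theorem exists_w (a : Fin 3) (v : Fin 2 → ℕ) : ∃ w : Fin 3 → ℕ, w ∘ oth a = v := by
  have h3 : a = 0 ∨ a = 1 ∨ a = 2 := by
    revert a
    decide
  rcases h3 with rfl | rfl | rfl
  · refine ⟨![v 0, v 0, v 1], ?_⟩
    funext j
    fin_cases j <;> rfl
  · refine ⟨![v 0, v 0, v 1], ?_⟩
    funext j
    fin_cases j <;> rfl
  · refine ⟨![v 0, v 1, v 0], ?_⟩
    funext j
    fin_cases j <;> rfl

theorem holds_tr_ex {S : Set (F3 C)} (y : Str bar (bD (LS S)) ℕ) (a : Fin 3) (χ : F3 C)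
    (v : Fin 3 → ℕ) :
    Holds y (tr S (.ex a χ)) v ↔ ev (y () (v ∘ oth a)) (.ex a χ) := Iff.rfl

/-- the truth lemma -/
theorem truth (hSUB : T_SUB) (φ : F3 C) (y : Str bar (bD (LS (subs φ))) ℕ)
    (hc : ∀ ψ ∈ subs φ, ∀ v, Holds y (cnd (subs φ) ψ) v) (ψ : F3 C) : ψ ∈ subs φ → NoCount ψ →
    ∀ v, Holds y (tr (subs φ) ψ) v ↔ Holds (red3 y) ψ v := by
  induction ψ with
  | label i B hB w => exact fun _ _ v => Iff.rfl
  | equal a b => exact fun _ _ v => Iff.rfl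
  | not θ ih =>
    intro h hn v
    have h1 : θ ∈ subs φ := (hSUB C φ).2.2 _ h (Or.inr (hSUB C θ).2.1)
    exact not_congr (ih h1 hn v)
  | conj θ ih =>
    intro h hn v
    have h1 : ∀ n, θ n ∈ subs φ := fun n =>
      (hSUB C φ).2.2 _ h (Or.inr (Set.mem_iUnion.mpr ⟨n, (hSUB C (θ n)).2.1⟩))
    exact forall_congr' fun n => ih n (h1 n) (hn n) v
  | ex a χ ih =>
    intro h hn v
    have h1 : χ ∈ subs φ := (hSUB C φ).2.2 _ h (Or.inr (hSUB C χ).2.1)
    have ih' := ih h1 hn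
    have hcc : ∀ v, (¬ (Holds y (tr (subs φ) χ) v ∧ ¬ ev (y () (v ∘ oth a)) (.ex a χ))) ∧
        ∃ n, ¬ (ev (y () (v ∘ oth a)) (.ex a χ) ∧
          ¬ Holds y (tr (subs φ) χ) (Function.update v a n)) := by
      intro v
      have h2 := (holds_and2 _ _ _ _).1 (hc _ h v)
      refine ⟨fun h3 => h2.1 ((holds_and2 _ _ _ _).2 ⟨h3.1, h3.2⟩), ?_⟩
      obtain ⟨n, hn'⟩ := h2.2
      refine ⟨n, fun h3 => hn' ((holds_and2 _ _ _ _).2 ⟨?_, h3.2⟩)⟩
      rw [holds_tr_ex, update_oth]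
      exact h3.1
    rw [holds_tr_ex]
    constructor
    · intro h2
      obtain ⟨n, hn'⟩ := (hcc v).2
      refine ⟨n, (ih' _).1 ?_⟩
      by_contra h3
      exact hn' ⟨h2, h3⟩
    · rintro ⟨n, hn'⟩
      have h2 := (hcc (Function.update v a n)).1
      rw [update_oth] at h2
      by_contra h3
      exact h2 ⟨(ih' _).2 hn', h3⟩
  | atLeast k a θ ih => exact fun _ h => h.elim

theorem pf_TRU (hSUB : T_SUB) : T_TRU := by
  classical
  intro C _ φ θ hφ hθ y hy
  have hc : ∀ ψ ∈ subs φ, ∀ v, Holds y (cnd (subs φ) ψ) v := by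
    intro ψ hψ v
    rw [← hθ] at hψ
    obtain ⟨n, rfl⟩ := hψ
    have h1 := (holds_and2 _ _ _ _).1 (hy v)
    exact h1.2 n
  have hnc := noCount_subs φ hφ
  have htr : ∀ ψ ∈ subs φ, ∀ v, Holds y (tr (subs φ) ψ) v ↔ Holds (red3 y) ψ v :=
    fun ψ hψ v => truth hSUB φ y hc ψ hψ (hnc ψ hψ) v
  refine ⟨htr, ?_⟩
  -- the bits of the other formulas are false
  have hbit : ∀ (ψ : F3 C) (hψ : ψ ∈ subs φ) (v : Fin 2 → ℕ),
      (∀ w : Fin 3 → ℕ, ¬ ev (y () (w ∘ ![0, 1])) ψ) → false = (y () v).2 ⟨ψ, hψ⟩ := by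
    intro ψ hψ v h
    have h1 := h ![v 0, v 1, 0]
    have h2 : (![v 0, v 1, 0] : Fin 3 → ℕ) ∘ ![0, 1] = v := by
      funext j
      fin_cases j <;> rfl
    rw [h2] at h1
    rcases hb : (y () v).2 ⟨ψ, hψ⟩ with _ | _
    · rfl
    · exact (h1 ⟨hψ, hb⟩).elim
  funext i v
  refine Prod.ext rfl ?_
  funext ψ
  obtain ⟨ψ, hψ⟩ := ψ
  cases ψ with
  | label j B hB w => exact hbit _ hψ v fun w' => hc _ hψ w'
  | equal a b => exact hbit _ hψ v fun w' => hc _ hψ w'
  | not χ => exact hbit _ hψ v fun w' => hc _ hψ w'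
  | conj χ => exact hbit _ hψ v fun w' => hc _ hψ w'
  | atLeast k a χ => exact hbit _ hψ v fun w' => hc _ hψ w'
  | ex a χ =>
    show decide (∃ w : Fin 3 → ℕ, (∀ j, w (oth a j) = v j) ∧ Holds (red3 y) (.ex a χ) w) =
      (y () v).2 ⟨.ex a χ, hψ⟩
    rw [Bool.eq_iff_iff, decide_eq_true_iff]
    constructor
    · rintro ⟨w, hw, h1⟩
      have h2 := (htr _ hψ w).2 h1
      rw [holds_tr_ex] at h2
      have h3 : w ∘ oth a = v := funext hw
      rw [h3] at h2
      exact h2.choose_spec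
    · intro h1
      obtain ⟨w, hw⟩ := exists_w a v
      refine ⟨w, fun j => congrFun hw j, (htr _ hψ w).1 ?_⟩
      rw [holds_tr_ex, hw]
      exact ⟨hψ, h1⟩

end Pool.Agent.H97.TU.TRU
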